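import Pool.Agent.Q229.MS.Red

set_option autoImplicit false

namespace Q229.MS

open Pool.Agent.NPC Pool.Agent.H622R2 Pool.Agent.H958R2

theorem div3 (i : ℕ) (r : Fin 3) : (3 * i + r.1) / 3 = i := by have := r.2; omega
theorem mod3 (i : ℕ) (r : Fin 3) : (3 * i + r.1) % 3 = r.1 := by have := r.2; omega

theorem tn_iff {a b : Bool} : a.toNat = b.toNat ↔ a = b := ⟨tn, fun h => by rw [h]⟩

theorem btL_bt : ∀ (r : Fin 3) (p q : Bool),
    btL r.1 (2 * p.toNat + q.toNat) = (bt r p q).toNat := by decide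

theorem twist : ∀ a b s : Bool, (a.toNat = (b.toNat + if s = true then 0 else 1) % 2) ↔
    a = (b ^^ !s) := by decide

theorem twist' : ∀ (r : Fin 3) (p q b : Bool),
    (((bt r p q).toNat + if r = 0 then 1 else 0) % 2 = b.toNat) ↔
    (bt r p q ^^ decide (r = 0)) = b := by decide

theorem inc_iff : ∀ k j : Fin 4, (decide (j = k) || decide ((j.1 + 1) % 4 = k.1)) = inc k j := by
  decide

theorem r01 : ∀ r : Fin 3, (r.1 = 0 ↔ r = 0) ∧ (r.1 = 1 ↔ r = 1) ∧ (r.1 + 3 = 3 ↔ r = 0) ∧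
    (r.1 + 3 = 4 ↔ r = 1) := by decide

theorem par_iff : ∀ (k : Fin 4) (b : Bool), (k.1 % 2 = b.toNat) ↔ par k = b := by decide

theorem three_iff (i : ℕ) (r : Fin 3) (j : ℕ) (s : Fin 3) :
    3 * i + r.1 = 3 * j + s.1 ↔ i = j ∧ r = s := by
  have := r.2
  have := s.2
  constructor
  · intro h
    exact ⟨by omega, Fin.ext (by omega)⟩
  · rintro ⟨rfl, rfl⟩
    rfl

theorem h_iff (p q p' q' : Bool) :
    2 * p.toNat + q.toNat = 2 * p'.toNat + q'.toNat ↔ p = p' ∧ q = q' := by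
  revert p q p' q'
  decide

theorem relL_lab (φ : Fm) (h : Bd13 φ)
    (x y : Vx (3 * φ.length) φ.length ⊕ Fin (15 * φ.length * (24 * φ.length + 1))) :
    relL φ (lab _ _ _ x) (lab _ _ _ y) =
      pad (R (sgn φ) (vrb h)) cl (15 * φ.length) (24 * φ.length) x y := by
  have hv : ∀ (i : Fin φ.length) (r : Fin 3) (x : Fin (3 * φ.length)),
      ((litL φ (3 * i.1 + r.1)).2 = x.1) ↔ vrb h i r = x := by
    intro i r x
    rw [Fin.ext_iff]
    rfl
  rcases x with (⟨x, a⟩ | ⟨i, r, b⟩ | ⟨i, p, q⟩ | ⟨i, k⟩ | ⟨i, k⟩) | t <;>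
    rcases y with (⟨y, a'⟩ | ⟨j, s, b'⟩ | ⟨j, p', q'⟩ | ⟨j, k'⟩ | ⟨j, k'⟩) | u <;>
    simp only [relL, r0, r1, r2, r3, r4, r5, r6, r7, lab, labV, pad, R, clL, cl,
      Prod.mk.injEq, false_and, zero_ne_one, one_ne_zero, OfNat.ofNat_ne_zero,
      OfNat.zero_ne_ofNat, OfNat.ofNat_ne_one, OfNat.one_ne_ofNat, Nat.reduceEqDiff, true_and,
      decide_true, decide_false, Bool.false_and, Bool.and_false, Bool.true_and, Bool.false_or,
      Bool.or_false, div3, mod3, btL_bt, Nat.reduceLT, Nat.lt_irrefl, Bool.and_true, and_true,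
      add_zero]
  all_goals first
    | rfl
    | simp only [hv, (r01 _).1, (r01 _).2.1, tn_iff, twist',
        par_iff, three_iff, h_iff, Bool.decide_and, Fin.val_inj, Bool.and_assoc, sgn]
  · congr 1
    exact decide_eq_decide.2 (twist _ _ _)
  · congr 1
    exact inc_iff _ _
  · congr 1
    exact inc_iff _ _

theorem card_Vx' (m : ℕ) : Fintype.card (Vx (3 * m) m) = 24 * m := by
  rw [card_Vx]
  omega

theorem cl_lt {m : ℕ} (x : Vx (3 * m) m) : cl x < 15 * m := by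
  rcases x with ⟨x, a⟩ | ⟨i, r, b⟩ | ⟨i, p, q⟩ | ⟨i, k⟩ | ⟨i, k⟩ <;> simp only [cl]
  · have := x.2
    omega
  · have := i.2
    have := r.2
    omega
  all_goals
    have := i.2
    omega

theorem red_length (φ : Fm) : (red φ).length = (vs φ).length := mat_length _ _

theorem red_iff (φ : Fm) (h : Bd13 φ) : X13 φ ↔ MatSym (red φ) := by
  -- the matrix and the padded relation
  obtain ⟨e, he⟩ := Pool.Agent.NPC.R671.exists_equiv (vs φ) (vs_nodup φ)
    (lab (3 * φ.length) φ.length (15 * φ.length * (24 * φ.length + 1)))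
    (lab_injective _ _ _) (mem_vs φ)
  have h1 : MatSym (red φ) ↔
      Sy (pad (R (sgn φ) (vrb h)) cl (15 * φ.length) (24 * φ.length)) := by
    rw [matSym_iff]
    refine sy_congr ((finCongr (red_length φ)).trans e) ?_
    intro i j
    have hi : i.1 < (vs φ).length := lt_of_lt_of_eq i.2 (red_length φ)
    have hj : j.1 < (vs φ).length := lt_of_lt_of_eq j.2 (red_length φ)
    rw [← relL_lab, Equiv.trans_apply, Equiv.trans_apply, he, he]
    exact entry_mat _ _ _ _ hi hj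
  have h2 := sy_pad (R (sgn φ) (vrb h)) cl (15 * φ.length) cl_lt
  rw [card_Vx'] at h2
  rw [h1, h2]
  have h3 : ∀ i : Fin φ.length, litL φ (3 * i.1) = φ[i].1 ∧ litL φ (3 * i.1 + 1) = φ[i].2.1 ∧
      litL φ (3 * i.1 + 2) = φ[i].2.2 := by
    intro i
    have h4 : φ.getD i.1 d0 = φ[i] := List.getD_eq_getElem _ _ i.2
    have e1 : 3 * i.1 % 3 = 0 := by omega
    have e2 : (3 * i.1 + 1) % 3 = 1 := by omega
    have e3 : (3 * i.1 + 2) % 3 = 2 := by omega
    have e4 : 3 * i.1 / 3 = i.1 := by omega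
    have e5 : (3 * i.1 + 1) / 3 = i.1 := by omega
    have e6 : (3 * i.1 + 2) / 3 = i.1 := by omega
    unfold litL
    rw [e1, e2, e3, e4, e5, e6, h4]
    exact ⟨rfl, rfl, rfl⟩
  constructor
  · rintro ⟨τ, hτ⟩
    refine backward (fun x => τ x.1) fun i => ?_
    have h5 := hτ φ[i] (List.getElem_mem _)
    obtain ⟨e1, e2, e3⟩ := h3 i
    have f1 : litL φ (3 * i.1 + (0 : Fin 3).1) = φ[i].1 := e1
    have f2 : litL φ (3 * i.1 + (1 : Fin 3).1) = φ[i].2.1 := e2
    have f3 : litL φ (3 * i.1 + (2 : Fin 3).1) = φ[i].2.2 := e3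
    simp only [vrb, sgn]
    rw [f1, f2, f3]
    exact h5
  · rintro ⟨σ, hcl, hσ⟩
    obtain ⟨τ, hτ⟩ := forward σ hcl hσ
    refine ⟨fun x => if hx : x < 3 * φ.length then τ ⟨x, hx⟩ else false, fun c hc => ?_⟩
    obtain ⟨i, hi, rfl⟩ := List.getElem_of_mem hc
    have h5 := hτ ⟨i, hi⟩
    obtain ⟨e1, e2, e3⟩ := h3 ⟨i, hi⟩
    have f1 : litL φ (3 * i + (0 : Fin 3).1) = φ[i].1 := e1
    have f2 : litL φ (3 * i + (1 : Fin 3).1) = φ[i].2.1 := e2
    have f3 : litL φ (3 * i + (2 : Fin 3).1) = φ[i].2.2 := e3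
    simp only [vrb, sgn] at h5
    have g1 := litL_lt h ⟨i, hi⟩ 0
    have g2 := litL_lt h ⟨i, hi⟩ 1
    have g3 := litL_lt h ⟨i, hi⟩ 2
    simp only [f1, f2, f3] at h5 g1 g2 g3
    simp only [dif_pos g1, dif_pos g2, dif_pos g3]
    exact h5

end Q229.MS
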