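import Pool.Agent.H671R2.GraphEnc
import Pool.Agent.Q229.Base

/-!
# Symmetrising a matrix by permuting its rows: definitions and a padding lemma
-/

set_option autoImplicit false

namespace Q229.MS

open Pool.Agent.NPC Pool.Agent.H622R2

/-- The square `0/1`-matrix given by a list of rows. -/
def toMat (M : List (List Bool)) : Matrix (Fin M.length) (Fin M.length) ℤ :=
  Matrix.of fun i j => if entry M i j = true then 1 else 0

/-- **Matrix symmetry**: `P A` is symmetric for some permutation matrix `P`. -/
def MatSym (M : List (List Bool)) : Prop :=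
  ∃ σ : Equiv.Perm (Fin M.length),
    (σ.permMatrix ℤ * toMat M).transpose = σ.permMatrix ℤ * toMat M

/-- The same for a relation on an arbitrary set. -/
def Sy {V : Type} (R : V → V → Bool) : Prop := ∃ σ : Equiv.Perm V, ∀ x y, R (σ x) y = R (σ y) x

theorem matSym_iff (M : List (List Bool)) :
    MatSym M ↔ Sy (fun i j : Fin M.length => entry M i j) := by
  have h : ∀ (σ : Equiv.Perm (Fin M.length)) (i j : Fin M.length),
      (σ.permMatrix ℤ * toMat M) i j = if entry M (σ i) j = true then 1 else 0 := by
    intro σ i j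
    have h0 : σ.permMatrix ℤ * toMat M = (toMat M).submatrix σ id :=
      PEquiv.toMatrix_toPEquiv_mul σ (toMat M)
    rw [h0]
    rfl
  unfold MatSym Sy
  refine exists_congr fun σ => ?_
  constructor
  · intro h1 x y
    have h2 := congrFun (congrFun h1 y) x
    rw [Matrix.transpose_apply, h, h] at h2
    change entry M (σ x) y = entry M (σ y) x
    by_cases h3 : entry M (σ x) y = true <;> by_cases h4 : entry M (σ y) x = true
    · rw [h3, h4]
    · rw [if_pos h3, if_neg h4] at h2
      norm_num at h2
    · rw [if_neg h3, if_pos h4] at h2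
      norm_num at h2
    · rw [Bool.not_eq_true] at h3 h4
      rw [h3, h4]
  · intro h1
    ext i j
    have h2 : entry M (σ j) i = entry M (σ i) j := h1 j i
    rw [Matrix.transpose_apply, h, h, h2]

theorem sy_congr {V W : Type} {R : V → V → Bool} {R' : W → W → Bool} (e : V ≃ W)
    (h : ∀ x y, R x y = R' (e x) (e y)) : Sy R ↔ Sy R' := by
  constructor
  · rintro ⟨σ, hσ⟩
    refine ⟨(e.symm.trans σ).trans e, fun x y => ?_⟩
    have := hσ (e.symm x) (e.symm y)
    rw [h, h] at this
    simpa using this
  · rintro ⟨σ, hσ⟩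
    refine ⟨(e.trans σ).trans e.symm, fun x y => ?_⟩
    rw [h, h]
    simpa using hσ (e x) (e y)

section Pad

variable {S : Type} [Fintype S] [DecidableEq S]

/-- The padded relation: the rows and columns of the element `s` get further entries such that
their sums determine the class of `s`. -/
def pad (R : S → S → Bool) (cl : S → ℕ) (K : ℕ) (n : ℕ) :
    S ⊕ Fin (K * (n + 1)) → S ⊕ Fin (K * (n + 1)) → Bool
  | Sum.inl x, Sum.inl y => R x y
  | Sum.inl x, Sum.inr t => decide (t.1 < (cl x + 1) * (n + 1))
  | Sum.inr t, Sum.inl x => decide (t.1 < (cl x + 1) * (n + 1))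
  | Sum.inr _, Sum.inr _ => false

omit [Fintype S] [DecidableEq S] in
theorem sum_row {V : Type} [Fintype V] {R : V → V → Bool} {σ : Equiv.Perm V}
    (h : ∀ x y, R (σ x) y = R (σ y) x) (x : V) :
    ∑ y, (R (σ x) y).toNat = ∑ y, (R y x).toNat := by
  rw [← Equiv.sum_comp σ (fun y => (R y x).toNat)]
  exact Finset.sum_congr rfl fun y _ => by rw [h x y]

omit [Fintype S] [DecidableEq S] in
theorem sum_thr {N c : ℕ} (h : c ≤ N) :
    ∑ t : Fin N, (decide (t.1 < c)).toNat = c := by
  have h0 : ∀ t : Fin N, (decide (t.1 < c)).toNat = if t.1 < c then 1 else 0 := by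
    intro t
    by_cases h1 : t.1 < c <;> simp [h1]
  rw [Finset.sum_congr rfl fun t _ => h0 t, Finset.sum_boole, Nat.cast_id]
  have h1 : (Finset.univ.filter fun t : Fin N => t.1 < c) =
      (Finset.univ : Finset (Fin c)).map (Fin.castLEEmb h) := by
    ext t
    simp only [Finset.mem_filter, Finset.mem_univ, true_and, Finset.mem_map, Fin.castLEEmb_apply]
    constructor
    · exact fun h2 => ⟨⟨t.1, h2⟩, rfl⟩
    · rintro ⟨u, rfl⟩
      exact u.2
  rw [h1, Finset.card_map, Finset.card_univ, Fintype.card_fin]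

omit [DecidableEq S] in
theorem sum_le_card (f : S → Bool) : ∑ y, (f y).toNat ≤ Fintype.card S := by
  have h1 : ∑ y, (f y).toNat ≤ ∑ _y : S, 1 := Finset.sum_le_sum fun y _ => Bool.toNat_le _
  simpa using h1

theorem sy_pad (R : S → S → Bool) (cl : S → ℕ) (K : ℕ) (hK : ∀ s, cl s < K) :
    Sy (pad R cl K (Fintype.card S)) ↔
      ∃ σ : Equiv.Perm S, (∀ s, cl (σ s) = cl s) ∧ ∀ x y, R (σ x) y = R (σ y) x := by
  set n := Fintype.card S with hn
  have hle : ∀ s, (cl s + 1) * (n + 1) ≤ K * (n + 1) := fun s =>
    Nat.mul_le_mul_right _ (hK s)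
  constructor
  · rintro ⟨σ, hσ⟩
    -- sums
    have hcol : ∀ s, ∑ y, (pad R cl K n y (Sum.inl s)).toNat =
        (∑ y, (R y s).toNat) + (cl s + 1) * (n + 1) := by
      intro s
      rw [Fintype.sum_sum_type]
      simp only [pad]
      rw [sum_thr (hle s)]
    have hrow : ∀ s, ∑ y, (pad R cl K n (Sum.inl s) y).toNat =
        (∑ y, (R s y).toNat) + (cl s + 1) * (n + 1) := by
      intro s
      rw [Fintype.sum_sum_type]
      simp only [pad]
      rw [sum_thr (hle s)]
    have hrow' : ∀ t, ∑ y, (pad R cl K n (Sum.inr t) y).toNat ≤ n := by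
      intro t
      rw [Fintype.sum_sum_type]
      simp only [pad, Bool.toNat_false, Finset.sum_const_zero, add_zero]
      exact sum_le_card fun y => decide (t.1 < (cl y + 1) * (n + 1))
    have hdiv : ∀ a c : ℕ, a ≤ n → (a + c * (n + 1)) / (n + 1) = c := by
      intro a c ha
      rw [Nat.add_mul_div_right _ _ (Nat.succ_pos n), Nat.div_eq_of_lt (by omega), zero_add]
    have key : ∀ s, ∃ s', σ (Sum.inl s) = Sum.inl s' ∧ cl s' = cl s := by
      intro s
      have h1 := sum_row hσ (Sum.inl s)
      rw [hcol s] at h1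
      have h2 := hdiv _ (cl s + 1) (sum_le_card fun y => R y s)
      rw [← h1] at h2
      rcases h3 : σ (Sum.inl s) with s' | t
      · refine ⟨s', rfl, ?_⟩
        rw [h3, hrow s', hdiv _ _ (sum_le_card fun y => R s' y)] at h2
        omega
      · rw [h3, Nat.div_eq_of_lt (lt_of_le_of_lt (hrow' t) (Nat.lt_succ_self n))] at h2
        omega
    choose g hg hcl using key
    have hinj : Function.Injective g := by
      intro x y hxy
      have h1 := hg x
      rw [hxy, ← hg y] at h1
      exact Sum.inl_injective (σ.injective h1)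
    refine ⟨Equiv.ofBijective g (Finite.injective_iff_bijective.1 hinj), hcl, fun x y => ?_⟩
    have h1 := hσ (Sum.inl x) (Sum.inl y)
    rw [hg, hg] at h1
    exact h1
  · rintro ⟨σ, hcl, hσ⟩
    refine ⟨Equiv.sumCongr σ (Equiv.refl _), ?_⟩
    rintro (x | t) (y | u)
    · exact hσ x y
    · simp only [Equiv.sumCongr_apply, Sum.map_inl, Sum.map_inr, Equiv.refl_apply, pad, hcl]
    · simp only [Equiv.sumCongr_apply, Sum.map_inl, Sum.map_inr, Equiv.refl_apply, pad, hcl]
    · rfl

end Pad

end Q229.MS
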