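import Pool.Agent.Q229.MS.Gad

/-!
# Symmetrising a matrix: from permutations to assignments
-/

set_option autoImplicit false

namespace Q229.MS

open Pool.Agent.H958R2

variable {N m : ℕ} {sg : Fin m → Fin 3 → Bool} {vr : Fin m → Fin 3 → Fin N}

theorem inv4 : ∀ a b c d : Fin 4, par a = true → par b = false → par c = true → par d = false →
    a ≠ c → b ≠ d → (a = 1 → b = 0) → (a = 3 → d = 0) →
    (a = 1 ∧ b = 0 ∧ c = 3 ∧ d = 2) ∨ (a = 3 ∧ d = 0 ∧ c = 1 ∧ b = 2) := by decide

/-- Two involutions of the two classes of the 8-cycle that both change the parity do not form an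
automorphism. -/
theorem no_both (f g : Fin 4 → Fin 4) (hf : ∀ k, f (f k) = k) (hg : ∀ k, g (g k) = k)
    (pf : ∀ k, par (f k) = !par k) (pg : ∀ k, par (g k) = !par k)
    (h : ∀ k j, inc (f k) (g j) = inc k j) : False := by
  have inj : ∀ f : Fin 4 → Fin 4, (∀ k, f (f k) = k) → ∀ a b, a ≠ b → f a ≠ f b := by
    intro f hf a b hab h
    exact hab (by rw [← hf a, h, hf b])
  have key : ∀ f : Fin 4 → Fin 4, (∀ k, f (f k) = k) → (∀ k, par (f k) = !par k) →
      (f 0 = 1 ∧ f 1 = 0 ∧ f 2 = 3 ∧ f 3 = 2) ∨ (f 0 = 3 ∧ f 3 = 0 ∧ f 2 = 1 ∧ f 1 = 2) := by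
    intro f hf pf
    refine inv4 _ _ _ _ (by rw [pf]; decide) (by rw [pf]; decide) (by rw [pf]; decide)
      (by rw [pf]; decide) (inj f hf 0 2 (by decide)) (inj f hf 1 3 (by decide)) ?_ ?_
    · intro h
      rw [← h, hf]
    · intro h
      rw [← h, hf]
  have h00 := h 0 0
  have h10 := h 1 0
  have h11 := h 1 1
  have h21 := h 2 1
  have h22 := h 2 2
  have h32 := h 3 2
  have h33 := h 3 3
  have h03 := h 0 3
  rcases key f hf pf with ⟨a0, a1, a2, a3⟩ | ⟨a0, a1, a2, a3⟩ <;>
    rcases key g hg pg with ⟨b0, b1, b2, b3⟩ | ⟨b0, b1, b2, b3⟩ <;>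
    simp only [a0, a1, a2, a3, b0, b1, b2, b3] at h00 h10 h11 h21 h22 h32 h33 h03
  · exact absurd h10 (by decide)
  · exact absurd h00 (by decide)
  · exact absurd h00 (by decide)
  · exact absurd h10 (by decide)

theorem par_bits : ∀ p q p' q' l0 l1 l2 : Bool, (p' ^^ true) = (p ^^ l0) → q' = (q ^^ l1) →
    (p' ^^ q') = ((p ^^ q) ^^ l2) → (l0 = true → l1 = true → False) → one3 l0 l1 l2 = true := by
  decide

theorem forward (σ : Equiv.Perm (Vx N m)) (hcl : ∀ s, cl (σ s) = cl s)
    (hσ : ∀ x y, R sg vr (σ x) y = R sg vr (σ y) x) : ∃ τ : Fin N → Bool, ∀ i,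
    one3 (τ (vr i 0) == sg i 0) (τ (vr i 1) == sg i 1) (τ (vr i 2) == sg i 2) = true := by
  have hv : ∀ x a, ∃ a', σ (.v x a) = .v x a' := by
    intro x a
    have h := hcl (.v x a)
    rcases hs : σ (.v x a) with ⟨y, b⟩ | ⟨i, r, b⟩ | ⟨i, p, q⟩ | ⟨i, k⟩ | ⟨i, k⟩ <;>
      rw [hs] at h <;> simp only [cl] at h
    · have : y = x := Fin.ext (by omega)
      exact ⟨b, by rw [this]⟩
    all_goals omega
  have hw : ∀ i r b, ∃ b', σ (.w i r b) = .w i r b' := by
    intro i r b
    have h := hcl (.w i r b)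
    rcases hs : σ (.w i r b) with ⟨y, b⟩ | ⟨j, s, b'⟩ | ⟨i, p, q⟩ | ⟨i, k⟩ | ⟨i, k⟩ <;>
      rw [hs] at h <;> simp only [cl] at h
    · omega
    · have h1 := r.2
      have h2 := s.2
      have h3 : j = i := Fin.ext (by omega)
      have h4 : s = r := Fin.ext (by omega)
      exact ⟨b', by rw [h3, h4]⟩
    all_goals omega
  have hh : ∀ i p q, ∃ p' q', σ (.h i p q) = .h i p' q' := by
    intro i p q
    have h := hcl (.h i p q)
    rcases hs : σ (.h i p q) with ⟨y, b⟩ | ⟨j, s, b'⟩ | ⟨j, p', q'⟩ | ⟨i, k⟩ | ⟨i, k⟩ <;>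
      rw [hs] at h <;> simp only [cl] at h
    · omega
    · omega
    · have h3 : j = i := Fin.ext (by omega)
      exact ⟨p', q', by rw [h3]⟩
    all_goals omega
  have hq : ∀ i k, ∃ k', σ (.q i k) = .q i k' := by
    intro i k
    have h := hcl (.q i k)
    rcases hs : σ (.q i k) with ⟨y, b⟩ | ⟨j, s, b'⟩ | ⟨j, p', q'⟩ | ⟨j, k'⟩ | ⟨j, k'⟩ <;>
      rw [hs] at h <;> simp only [cl] at h
    · omega
    · omega
    · omega
    · have h3 : j = i := Fin.ext (by omega)
      exact ⟨k', by rw [h3]⟩
    · omega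
  have he : ∀ i k, ∃ k', σ (.e i k) = .e i k' := by
    intro i k
    have h := hcl (.e i k)
    rcases hs : σ (.e i k) with ⟨y, b⟩ | ⟨j, s, b'⟩ | ⟨j, p', q'⟩ | ⟨j, k'⟩ | ⟨j, k'⟩ <;>
      rw [hs] at h <;> simp only [cl] at h
    · omega
    · omega
    · omega
    · omega
    · have h3 : j = i := Fin.ext (by omega)
      exact ⟨k', by rw [h3]⟩
  choose fv hv using hv
  choose fw hw using hw
  choose fp fr hh using hh
  choose gq hq using hq
  choose ge he using he
  -- involutions
  have iv : ∀ x a, fv x (fv x a) = a := by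
    intro x a
    have h := hσ (.v x a) (.v x (fv x a))
    rw [hv, hv] at h
    simpa [R] using h.symm
  have iw : ∀ i r b, fw i r (fw i r b) = b := by
    intro i r b
    have h := hσ (.w i r b) (.w i r (fw i r b))
    rw [hw, hw] at h
    simpa [R] using h.symm
  have iq : ∀ i k, gq i (gq i k) = k := by
    intro i k
    have h := hσ (.q i k) (.q i (gq i k))
    rw [hq, hq] at h
    simpa [R] using h.symm
  have ie : ∀ i k, ge i (ge i k) = k := by
    intro i k
    have h := hσ (.e i k) (.e i (ge i k))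
    rw [he, he] at h
    simpa [R] using h.symm
  -- bits
  have bb : ∀ f : Bool → Bool, (∀ b, f (f b) = b) → ∀ b, f b = (b ^^ f false) := by decide
  have bv : ∀ x a, fv x a = (a ^^ fv x false) := fun x a => bb _ (iv x) a
  have bw : ∀ i r b, fw i r b = (b ^^ fw i r false) := fun i r b => bb _ (iw i r) b
  have hl : ∀ i r, fw i r false = (fv (vr i r) false == sg i r) := by
    intro i r
    have h := hσ (.v (vr i r) false) (.w i r false)
    rw [hv, hw] at h
    simp only [R, decide_true, Bool.true_and] at h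
    revert h
    generalize fv (vr i r) false = t
    generalize fw i r false = l
    generalize sg i r = s
    revert t l s
    decide
  refine ⟨fun x => fv x false, fun i => ?_⟩
  rw [← hl, ← hl, ← hl]
  -- the elements of type `h`
  have h0 : (fp i false false ^^ true) = (false ^^ fw i 0 false) := by
    have h := hσ (.w i 0 (fw i 0 false)) (.h i false false)
    rw [hw, hh, iw] at h
    simp only [R, decide_true, Bool.true_and, bt, if_true] at h
    have h1 := of_decide_eq_true h.symm
    rw [h1, Bool.false_xor]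
  have h1 : fr i false false = (false ^^ fw i 1 false) := by
    have h := hσ (.w i 1 (fw i 1 false)) (.h i false false)
    rw [hw, hh, iw] at h
    simp only [R, decide_true, Bool.true_and, bt, if_true, one_ne_zero, if_false, decide_false,
      Bool.xor_false] at h
    have h1 := of_decide_eq_true h.symm
    rw [h1, Bool.false_xor]
  have h2 : (fp i false false ^^ fr i false false) = ((false ^^ false) ^^ fw i 2 false) := by
    have h := hσ (.w i 2 (fw i 2 false)) (.h i false false)
    rw [hw, hh, iw] at h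
    have e1 : (2 : Fin 3) ≠ 0 := by decide
    have e2 : (2 : Fin 3) ≠ 1 := by decide
    simp only [R, decide_true, Bool.true_and, bt, if_neg e1, if_neg e2, decide_eq_false e1,
      Bool.xor_false] at h
    have h1 := of_decide_eq_true h.symm
    rw [h1, Bool.xor_false, Bool.false_xor]
  refine par_bits _ _ _ _ _ _ _ h0 h1 h2 fun l0 l1 => ?_
  refine no_both (gq i) (ge i) (iq i) (ie i) ?_ ?_ ?_
  · intro k
    have h := hσ (.w i 0 (!par k)) (.q i k)
    rw [hw, hq, bw, l0] at h
    simp only [R, decide_true, Bool.true_and, Bool.xor_true, Bool.not_not] at h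
    exact of_decide_eq_true h.symm
  · intro k
    have h := hσ (.w i 1 (!par k)) (.e i k)
    rw [hw, he, bw, l1] at h
    simp only [R, decide_true, Bool.true_and, Bool.xor_true, Bool.not_not] at h
    exact of_decide_eq_true h.symm
  · intro k j
    have h := hσ (.q i k) (.e i (ge i j))
    rw [hq, he, ie] at h
    simpa only [R, decide_true, Bool.true_and] using h

end Q229.MS
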