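import Pool.Agent.Q229.MS.Defs
import Pool.Agent.H958R2.NLT.X13Defs

/-!
# Symmetrising a matrix: the gadgets
-/

set_option autoImplicit false

namespace Q229.MS

open Pool.Agent.H958R2

/-- The elements: variables `v`, literals `w` (clause and position), and three types of elements of
a clause. -/
inductive Vx (N m : ℕ) : Type
  | v (x : Fin N) (a : Bool)
  | w (i : Fin m) (r : Fin 3) (b : Bool)
  | h (i : Fin m) (p q : Bool)
  | q (i : Fin m) (k : Fin 4)
  | e (i : Fin m) (k : Fin 4)
  deriving DecidableEq, Fintype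

/-- the parity of `k` -/
def par (k : Fin 4) : Bool := decide (k.1 % 2 = 1)

/-- the bits of an element of type `h` -/
def bt (r : Fin 3) (p q : Bool) : Bool := if r = 0 then p else if r = 1 then q else p ^^ q

/-- incidence in an 8-cycle -/
def inc (k j : Fin 4) : Bool := decide (j = k) || decide (j + 1 = k)

/-- the relation -/
def R {N m : ℕ} (sg : Fin m → Fin 3 → Bool) (vr : Fin m → Fin 3 → Fin N) :
    Vx N m → Vx N m → Bool
  | .v x a, .v y b => decide (x = y) && decide (a = b)
  | .w i r b, .w j s c => decide (i = j) && (decide (r = s) && decide (b = c))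
  | .h i p q, .h j p' q' => decide (i = j) && (decide (p = p') && decide (q = q'))
  | .q i k, .q j l => decide (i = j) && decide (k = l)
  | .e i k, .e j l => decide (i = j) && decide (k = l)
  | .v x a, .w i r b => decide (vr i r = x) && decide (a = b)
  | .w i r b, .v x a => decide (vr i r = x) && decide (a = (b ^^ !sg i r))
  | .w i r b, .h j p q => decide (i = j) && decide (bt r p q = b)
  | .h j p q, .w i r b => decide (i = j) && decide ((bt r p q ^^ decide (r = 0)) = b)
  | .w i r b, .q j k => decide (i = j) && (decide (r = 0) && decide (par k = b))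
  | .q j k, .w i r b => decide (i = j) && (decide (r = 0) && decide (par k = b))
  | .w i r b, .e j k => decide (i = j) && (decide (r = 1) && decide (par k = b))
  | .e j k, .w i r b => decide (i = j) && (decide (r = 1) && decide (par k = b))
  | .q i k, .e j l => decide (i = j) && inc k l
  | .e j l, .q i k => decide (i = j) && inc k l
  | _, _ => false

/-- the classes -/
def cl {N m : ℕ} : Vx N m → ℕ
  | .v x _ => 5 * x.1
  | .w i r _ => 5 * (3 * i.1 + r.1) + 1
  | .h i _ _ => 5 * i.1 + 2
  | .q i _ => 5 * i.1 + 3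
  | .e i _ => 5 * i.1 + 4

/-- the action on the elements of type `q` -/
def fq (l0 l1 : Bool) (k : Fin 4) : Fin 4 :=
  if l0 = false ∧ l1 = false then k else (if l0 then 1 else 0) - k

/-- the action on the elements of type `e` -/
def fe (l0 l1 : Bool) (k : Fin 4) : Fin 4 :=
  if l0 = false ∧ l1 = false then k else (if l0 then 1 else 0) - k - 1

theorem fq_fq : ∀ l0 l1 k, fq l0 l1 (fq l0 l1 k) = k := by decide
theorem fe_fe : ∀ l0 l1 k, fe l0 l1 (fe l0 l1 k) = k := by decide
theorem par_fq : ∀ l0 l1 l2 k, one3 l0 l1 l2 = true → par (fq l0 l1 k) = (par k ^^ l0) := by decide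
theorem par_fe : ∀ l0 l1 l2 k, one3 l0 l1 l2 = true → par (fe l0 l1 k) = (par k ^^ l1) := by decide
theorem inc_fq : ∀ l0 l1 l2 k j, one3 l0 l1 l2 = true →
    inc (fq l0 l1 k) j = inc k (fe l0 l1 j) := by decide

/-- the permutation for an assignment -/
def F {N m : ℕ} (sg : Fin m → Fin 3 → Bool) (vr : Fin m → Fin 3 → Fin N) (τ : Fin N → Bool) :
    Vx N m → Vx N m
  | .v x a => .v x (a ^^ τ x)
  | .w i r b => .w i r (b ^^ (τ (vr i r) == sg i r))
  | .h i p q => .h i (p ^^ !(τ (vr i 0) == sg i 0)) (q ^^ (τ (vr i 1) == sg i 1))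
  | .q i k => .q i (fq (τ (vr i 0) == sg i 0) (τ (vr i 1) == sg i 1) k)
  | .e i k => .e i (fe (τ (vr i 0) == sg i 0) (τ (vr i 1) == sg i 1) k)

variable {N m : ℕ} {sg : Fin m → Fin 3 → Bool} {vr : Fin m → Fin 3 → Fin N}

theorem F_F (τ : Fin N → Bool) (x : Vx N m) : F sg vr τ (F sg vr τ x) = x := by
  cases x <;> simp [F, fq_fq, fe_fe]

theorem xor_iff : ∀ a b t : Bool, decide ((a ^^ t) = b) = decide ((b ^^ t) = a) := by decide

theorem link : ∀ a b t s : Bool,
    decide ((a ^^ t) = b) = decide (a = ((b ^^ (t == s)) ^^ !s)) := by decide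

theorem bt_F : ∀ l0 l1 l2 p q b : Bool, one3 l0 l1 l2 = true → ∀ r : Fin 3,
    decide (bt r p q = (b ^^ (if r = 0 then l0 else if r = 1 then l1 else l2))) =
    decide ((bt r (p ^^ !l0) (q ^^ l1) ^^ decide (r = 0)) = b) := by decide

theorem lit_eq (l : Fin 3 → Bool) (r : Fin 3) :
    l r = if r = 0 then l 0 else if r = 1 then l 1 else l 2 := by
  fin_cases r <;> simp

theorem backward (τ : Fin N → Bool)
    (hτ : ∀ i, one3 (τ (vr i 0) == sg i 0) (τ (vr i 1) == sg i 1) (τ (vr i 2) == sg i 2) = true) :
    ∃ σ : Equiv.Perm (Vx N m), (∀ s, cl (σ s) = cl s) ∧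
      ∀ x y, R sg vr (σ x) y = R sg vr (σ y) x := by
  refine ⟨⟨F sg vr τ, F sg vr τ, F_F τ, F_F τ⟩, ?_, ?_⟩
  · intro s
    cases s <;> rfl
  · intro x y
    simp only [Equiv.coe_fn_mk]
    have wh : ∀ (i : Fin m) r b j p q, R sg vr (F sg vr τ (.w i r b)) (.h j p q) =
        R sg vr (F sg vr τ (.h j p q)) (.w i r b) := by
      intro i r b j p q
      simp only [F, R]
      by_cases h : i = j
      · subst h
        have h1 := bt_F _ _ _ p q b (hτ i) r
        rw [← lit_eq (fun r => (τ (vr i r) == sg i r)) r] at h1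
        rw [h1]
      · simp [h]
    have wq : ∀ (i : Fin m) r b j k, R sg vr (F sg vr τ (.w i r b)) (.q j k) =
        R sg vr (F sg vr τ (.q j k)) (.w i r b) := by
      intro i r b j k
      simp only [F, R]
      by_cases h : i = j
      · subst h
        by_cases h' : r = 0
        · subst h'
          rw [par_fq _ _ _ _ (hτ i), xor_iff]
          simp [eq_comm]
        · simp [h']
      · simp [h]
    have we : ∀ (i : Fin m) r b j k, R sg vr (F sg vr τ (.w i r b)) (.e j k) =
        R sg vr (F sg vr τ (.e j k)) (.w i r b) := by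
      intro i r b j k
      simp only [F, R]
      by_cases h : i = j
      · subst h
        by_cases h' : r = 1
        · subst h'
          rw [par_fe _ _ _ _ (hτ i), xor_iff]
          simp [eq_comm]
        · simp [h']
      · simp [h]
    have qe : ∀ (i : Fin m) k j l, R sg vr (F sg vr τ (.q i k)) (.e j l) =
        R sg vr (F sg vr τ (.e j l)) (.q i k) := by
      intro i k j l
      simp only [F, R]
      by_cases h : i = j
      · subst h
        rw [inc_fq _ _ _ _ _ (hτ i)]
      · simp [h]
    have vw : ∀ (x : Fin N) a (i : Fin m) r b, R sg vr (F sg vr τ (.v x a)) (.w i r b) =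
        R sg vr (F sg vr τ (.w i r b)) (.v x a) := by
      intro x a i r b
      simp only [F, R]
      by_cases h : vr i r = x
      · rw [h, link a b (τ x) (sg i r)]
      · simp [h]
    rcases x with ⟨x, a⟩ | ⟨i, r, b⟩ | ⟨i, p, q⟩ | ⟨i, k⟩ | ⟨i, k⟩ <;>
      rcases y with ⟨y, a'⟩ | ⟨j, s, b'⟩ | ⟨j, p', q'⟩ | ⟨j, k'⟩ | ⟨j, k'⟩
    · simp only [F, R]
      by_cases h : x = y
      · subst h
        rw [xor_iff]
      · simp [h, Ne.symm h]
    · exact vw _ _ _ _ _
    · rfl
    · rfl
    · rfl
    · exact (vw _ _ _ _ _).symm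
    · simp only [F, R]
      by_cases h : i = j
      · subst h
        by_cases h' : r = s
        · subst h'
          rw [xor_iff]
        · simp [h', Ne.symm h']
      · simp [h, Ne.symm h]
    · exact wh _ _ _ _ _ _
    · exact wq _ _ _ _ _
    · exact we _ _ _ _ _
    · rfl
    · exact (wh _ _ _ _ _ _).symm
    · simp only [F, R]
      by_cases h : i = j
      · subst h
        rw [xor_iff p p', xor_iff q q']
      · simp [h, Ne.symm h]
    · rfl
    · rfl
    · rfl
    · exact (wq _ _ _ _ _).symm
    · rfl
    · simp only [F, R]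
      by_cases h : i = j
      · subst h
        simp only [decide_true, Bool.true_and, decide_eq_decide]
        constructor
        · rintro rfl
          exact fq_fq _ _ _
        · rintro rfl
          exact fq_fq _ _ _
      · simp [h, Ne.symm h]
    · exact qe _ _ _ _
    · rfl
    · exact (we _ _ _ _ _).symm
    · rfl
    · exact (qe _ _ _ _).symm
    · simp only [F, R]
      by_cases h : i = j
      · subst h
        simp only [decide_true, Bool.true_and, decide_eq_decide]
        constructor
        · rintro rfl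
          exact fe_fe _ _ _
        · rintro rfl
          exact fe_fe _ _ _
      · simp [h, Ne.symm h]

end Q229.MS
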