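import Pool.Agent.Q229.MS.Rel

/-!
# Symmetrising a matrix: polynomial time, membership in NP
-/

set_option autoImplicit false

namespace Q229.MS

open Pool.Agent.NPC Pool.Agent.H622R2 Pool.Agent.H958R2

theorem red_poly : Poly red := by
  have hm : UPoly (fun φ : Fm => φ.length) := UPoly.length Poly.id
  have h3 := (UPoly.const (α := Fm) 3).mul hm
  have h0 : Poly vs :=
    Poly.append (block_poly 0 h3 (UPoly.const 2)) (Poly.append
      (block_poly 1 h3 (UPoly.const 2)) (Poly.append
      (block_poly 2 hm (UPoly.const 4)) (Poly.append (block_poly 3 hm (UPoly.const 4))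
      (Poly.append (block_poly 4 hm (UPoly.const 4))
      (block_poly 5 (((UPoly.const 15).mul hm).mul (((UPoly.const 24).mul hm).add
        (UPoly.const 1))) (UPoly.const 1))))))
  refine mat_poly (adj := fun (φ : Fm) => relL φ) h0 ?_
  unfold relL r0 r1 r2 r3 r4 r5 r6 r7 litL btL clL d0
  fun_prop

theorem hardI_MatSym : HardI MatSym := by
  intro L hL
  obtain ⟨g, hg, _, hgL⟩ := (H958NLT.hardPr_X13.trans (Pr' := fun _ => True) (Q := MatSym) red_poly
    (fun _ _ => trivial) (fun φ h => red_iff φ h)) L hL
  exact ⟨g, hg, hgL⟩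

/-- test for two indices -/
def t2 (M : List (List Bool)) (w : List ℕ) (i j : ℕ) : Bool :=
  (decide (i = j) || !decide (w.getD i 0 = w.getD j 0)) &&
    decide ((M.getD (w.getD i 0) []).getD j false = (M.getD (w.getD j 0) []).getD i false)

/-- the test of a certificate -/
def certT (x : List (List Bool) × List ℕ) : Bool :=
  (List.range x.1.length).all fun i => decide (x.2.getD i 0 < x.1.length) &&
    (List.range x.1.length).all fun j => t2 x.1 x.2 i j

theorem t2_poly {α : Type} [TEnc α] {M : α → List (List Bool)} {w : α → List ℕ} {i j : α → ℕ}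
    (hM : Poly M) (hw : Poly w) (hi : Poly i) (hj : Poly j) :
    Poly (fun a => t2 (M a) (w a) (i a) (j a)) := by
  unfold t2
  exact Poly.and (Poly.or (Poly.decide_eq hi hj) (Poly.not (Poly.decide_eq
    (Poly.getD hw hi (pc 0)) (Poly.getD hw hj (pc 0)))))
    (Poly.decide_eq (Poly.getD (Poly.getD hM (Poly.getD hw hi (pc 0)) (pc [])) hj (pc false))
      (Poly.getD (Poly.getD hM (Poly.getD hw hj (pc 0)) (pc [])) hi (pc false)))

theorem certT_poly : Poly certT := by
  have h2 : Poly (fun p : (List (List Bool) × List ℕ) × ℕ =>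
      (List.range p.1.1.length).all fun j => t2 p.1.1 p.1.2 p.2 j) :=
    Poly.all (p := fun (p : (List (List Bool) × List ℕ) × ℕ) j => t2 p.1.1 p.1.2 p.2 j)
      (Poly.range_length (Poly.fst (Poly.fst Poly.id)))
      (t2_poly (Poly.fst (Poly.fst (Poly.fst Poly.id))) (Poly.snd (Poly.fst (Poly.fst Poly.id)))
        (Poly.snd (Poly.fst Poly.id)) (Poly.snd Poly.id))
  exact Poly.all (p := fun (x : List (List Bool) × List ℕ) i => decide (x.2.getD i 0 < x.1.length) &&
    (List.range x.1.length).all fun j => t2 x.1 x.2 i j) (Poly.range_length (Poly.fst Poly.id))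
    (Poly.and (Poly.decide_lt (Poly.getD (Poly.snd (Poly.fst Poly.id)) (Poly.snd Poly.id) (pc 0))
      (Poly.length (Poly.fst (Poly.fst Poly.id)))) h2)

theorem cert_iff (M : List (List Bool)) : MatSym M ↔ ∃ w : List ℕ,
    sz w ≤ (Polynomial.X * (Polynomial.C 4 * Polynomial.X + Polynomial.C 2) +
      Polynomial.C 1 : Polynomial ℕ).eval (sz M) ∧ certT (M, w) = true := by
  have hn : M.length < sz M := length_lt_sz M
  simp only [Polynomial.eval_add, Polynomial.eval_mul, Polynomial.eval_C, Polynomial.eval_X]
  rw [matSym_iff]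
  constructor
  · rintro ⟨σ, h⟩
    refine ⟨(List.finRange M.length).map fun i => (σ i).1, ?_, ?_⟩
    · have h1 := sz_list_lt M.length ((List.finRange M.length).map fun i => (σ i).1) (by
        intro x hx
        obtain ⟨v, _, rfl⟩ := List.mem_map.1 hx
        exact (σ v).2) (by simp)
      nlinarith
    · have hg : ∀ (i : ℕ) (hi : i < M.length),
          ((List.finRange M.length).map fun i => (σ i).1).getD i 0 = (σ ⟨i, hi⟩).1 := by
        intro i hi
        rw [List.getD_eq_getElem _ _ (by simpa using hi)]
        simp
      unfold certT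
      simp only [Bool.and_eq_true, List.all_eq_true, List.mem_range, decide_eq_true_eq]
      intro i hi
      refine ⟨?_, fun j hj => ?_⟩
      · rw [hg i hi]
        exact (σ _).2
      · unfold t2
        simp only [Bool.and_eq_true, Bool.or_eq_true, decide_eq_true_eq, Bool.not_eq_true',
          decide_eq_false_iff_not]
        rw [hg i hi, hg j hj]
        refine ⟨?_, h ⟨i, hi⟩ ⟨j, hj⟩⟩
        by_cases hij : i = j
        · exact Or.inl hij
        · right
          intro h1
          have h2 := σ.injective (Fin.ext h1)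
          rw [Fin.mk.injEq] at h2
          exact hij h2
  · rintro ⟨w, -, h⟩
    unfold certT at h
    simp only [Bool.and_eq_true, List.all_eq_true, List.mem_range, decide_eq_true_eq] at h
    let g : Fin M.length → Fin M.length := fun i => ⟨w.getD i.1 0, (h i.1 i.2).1⟩
    have hg : ∀ i j, (i = j ∨ g i ≠ g j) ∧ entry M (g i) j = entry M (g j) i := by
      intro i j
      have h1 := (h i.1 i.2).2 j.1 j.2
      unfold t2 at h1
      simp only [Bool.and_eq_true, Bool.or_eq_true, decide_eq_true_eq, Bool.not_eq_true',
          decide_eq_false_iff_not] at h1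
      refine ⟨?_, h1.2⟩
      rcases h1.1 with h2 | h2
      · exact Or.inl (Fin.ext h2)
      · right
        intro h3
        exact h2 (congrArg Fin.val h3)
    have hinj : Function.Injective g := by
      intro i j hij
      rcases (hg i j).1 with h1 | h1
      · exact h1
      · exact absurd hij h1
    exact ⟨Equiv.ofBijective g (Finite.injective_iff_bijective.1 hinj), fun x y => (hg x y).2⟩

theorem inNPP : InNPP MatSym := inNPP_of certT_poly _ cert_iff

/-- graph isomorphism, for graphs given by adjacency matrices -/
def GraphIso (p : List (List Bool) × List (List Bool)) : Prop :=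
  Nonempty (matGraph p.1 ≃g matGraph p.2)

end Q229.MS
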