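import Pool.Agent.Q229.MS.Fwd
import Pool.Agent.H958R2.NLT.X13Hard

/-!
# Symmetrising a matrix: the reduction
-/

set_option autoImplicit false

namespace Q229.MS

open Pool.Agent.NPC Pool.Agent.H622R2 Pool.Agent.H958R2

/-- labels -/
abbrev Lab : Type := ℕ × ℕ × ℕ

/-- formulas -/
abbrev Fm : Type := List (Lit ℕ × Lit ℕ × Lit ℕ)

/-- a default clause -/
def d0 : Lit ℕ × Lit ℕ × Lit ℕ := ((false, 0), (false, 0), (false, 0))

/-- the literal number `j` -/
def litL (φ : Fm) (j : ℕ) : Lit ℕ :=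
  if j % 3 = 0 then (φ.getD (j / 3) d0).1
  else if j % 3 = 1 then (φ.getD (j / 3) d0).2.1 else (φ.getD (j / 3) d0).2.2

/-- bits -/
def btL (r p : ℕ) : ℕ := if r = 0 then p / 2 else if r = 1 then p % 2 else (p / 2 + p % 2) % 2

/-- classes -/
def clL (x : Lab) : ℕ := 5 * x.2.1 + x.1

/-- same type -/
def r0 (x y : Lab) : Bool := decide (x = y) && decide (x.1 < 5)
/-- variables and literals -/
def r1 (φ : Fm) (x y : Lab) : Bool :=
  decide (x.1 = 0) && (decide (y.1 = 1) && (decide ((litL φ y.2.1).2 = x.2.1) &&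
    decide (x.2.2 = y.2.2)))
/-- literals and variables -/
def r2 (φ : Fm) (x y : Lab) : Bool :=
  decide (x.1 = 1) && (decide (y.1 = 0) && (decide ((litL φ x.2.1).2 = y.2.1) &&
    decide (y.2.2 = (x.2.2 + (if (litL φ x.2.1).1 = true then 0 else 1)) % 2)))
/-- literals and `h` -/
def r3 (x y : Lab) : Bool :=
  decide (x.1 = 1) && (decide (y.1 = 2) && (decide (x.2.1 / 3 = y.2.1) &&
    decide (btL (x.2.1 % 3) y.2.2 = x.2.2)))
/-- `h` and literals -/
def r4 (x y : Lab) : Bool :=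
  decide (x.1 = 2) && (decide (y.1 = 1) && (decide (y.2.1 / 3 = x.2.1) &&
    decide ((btL (y.2.1 % 3) x.2.2 + (if y.2.1 % 3 = 0 then 1 else 0)) % 2 = y.2.2)))
/-- literals and `q`, `e` (one direction) -/
def r5 (x y : Lab) : Bool :=
  decide (x.1 = 1) && (decide (2 < y.1) && (decide (y.1 < 5) && (decide (x.2.1 / 3 = y.2.1) &&
    (decide (x.2.1 % 3 + 3 = y.1) && decide (y.2.2 % 2 = x.2.2)))))
/-- `q` and `e` (one direction) -/
def r6 (x y : Lab) : Bool :=
  decide (x.1 = 3) && (decide (y.1 = 4) && (decide (x.2.1 = y.2.1) &&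
    (decide (y.2.2 = x.2.2) || decide ((y.2.2 + 1) % 4 = x.2.2))))
/-- padding (one direction) -/
def r7 (n : ℕ) (x y : Lab) : Bool :=
  decide (x.1 < 5) && (decide (y.1 = 5) && decide (y.2.1 < (clL x + 1) * (n + 1)))

/-- the relation -/
def relL (φ : Fm) (x y : Lab) : Bool :=
  r0 x y || (r1 φ x y || (r2 φ x y || (r3 x y || (r4 x y || (r5 x y || (r5 y x ||
    (r6 x y || (r6 y x || (r7 (24 * φ.length) x y || r7 (24 * φ.length) y x)))))))))

/-- the labels -/
def vs (φ : Fm) : List Lab :=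
  block 0 (3 * φ.length) 2 ++ (block 1 (3 * φ.length) 2 ++ (block 2 φ.length 4 ++
    (block 3 φ.length 4 ++ (block 4 φ.length 4 ++
      (block 5 (15 * φ.length * (24 * φ.length + 1)) 1)))))

/-- the reduction -/
def red (φ : Fm) : List (List Bool) := mat (vs φ) (relL φ)

/-- the label of an element -/
def labV (N m : ℕ) : Vx N m → Lab
  | .v x a => (0, x, a.toNat)
  | .w i r b => (1, 3 * i.1 + r.1, b.toNat)
  | .h i p q => (2, i, 2 * p.toNat + q.toNat)
  | .q i k => (3, i, k)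
  | .e i k => (4, i, k)

/-- the label of an element or padding element -/
def lab (N m T : ℕ) : Vx N m ⊕ Fin T → Lab
  | Sum.inl x => labV N m x
  | Sum.inr t => (5, t, 0)

theorem tn : ∀ {a b : Bool}, a.toNat = b.toNat → a = b := by decide

theorem labV_injective (N m : ℕ) : Function.Injective (labV N m) := by
  rintro (⟨x, a⟩ | ⟨i, r, b⟩ | ⟨i, p, q⟩ | ⟨i, k⟩ | ⟨i, k⟩)
    (⟨y, a'⟩ | ⟨j, s, b'⟩ | ⟨j, p', q'⟩ | ⟨j, k'⟩ | ⟨j, k'⟩) h <;>
    simp only [labV, Prod.mk.injEq, false_and, zero_ne_one, one_ne_zero,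
      OfNat.ofNat_ne_zero, OfNat.zero_ne_ofNat, OfNat.ofNat_ne_one, OfNat.one_ne_ofNat,
      Nat.reduceEqDiff, true_and] at h
  · rw [Fin.ext h.1, tn h.2]
  · have h1 := r.2
    have h2 := s.2
    have h3 : i = j := Fin.ext (by omega)
    have h4 : r = s := Fin.ext (by omega)
    rw [h3, h4, tn h.2]
  · have h1 := Bool.toNat_le p
    have h2 := Bool.toNat_le q
    have h3 := Bool.toNat_le p'
    have h4 := Bool.toNat_le q'
    have h5 : p.toNat = p'.toNat := by omega
    have h6 : q.toNat = q'.toNat := by omega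
    rw [Fin.ext h.1, tn h5, tn h6]
  · rw [Fin.ext h.1, Fin.ext h.2]
  · rw [Fin.ext h.1, Fin.ext h.2]

theorem labV_lt (N m : ℕ) (x : Vx N m) : (labV N m x).1 < 5 := by
  cases x <;> simp [labV]

theorem clL_labV (N m : ℕ) (x : Vx N m) : clL (labV N m x) = cl x := by
  cases x <;> simp [labV, clL, cl]

theorem lab_injective (N m T : ℕ) : Function.Injective (lab N m T) := by
  rintro (x | t) (y | u) h
  · rw [labV_injective N m h]
  · have h1 := labV_lt N m x
    have h2 : labV N m x = (5, u.1, 0) := h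
    rw [h2] at h1
    exact absurd h1 (by norm_num)
  · have h1 := labV_lt N m y
    have h2 : ((5, t.1, 0) : Lab) = labV N m y := h
    rw [← h2] at h1
    exact absurd h1 (by norm_num)
  · simp only [lab, Prod.mk.injEq, true_and, and_true] at h
    rw [Fin.ext h]

theorem vs_nodup (φ : Fm) : (vs φ).Nodup := by
  unfold vs
  refine block_append_nodup (block_append_nodup (block_append_nodup (block_append_nodup
    (block_append_nodup (block_nodup _ _ _) ?_) ?_) ?_) ?_) ?_ <;>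
  · intro z hz
    simp only [List.mem_append, mem_block] at hz
    omega

/-- the elements as a sum type -/
def sumEquiv (N m : ℕ) : Vx N m ≃ (Fin N × Bool) ⊕ ((Fin m × Fin 3 × Bool) ⊕
    ((Fin m × Bool × Bool) ⊕ ((Fin m × Fin 4) ⊕ (Fin m × Fin 4)))) where
  toFun
    | .v x a => Sum.inl (x, a)
    | .w i r b => Sum.inr (Sum.inl (i, r, b))
    | .h i p q => Sum.inr (Sum.inr (Sum.inl (i, p, q)))
    | .q i k => Sum.inr (Sum.inr (Sum.inr (Sum.inl (i, k))))
    | .e i k => Sum.inr (Sum.inr (Sum.inr (Sum.inr (i, k))))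
  invFun
    | Sum.inl (x, a) => .v x a
    | Sum.inr (Sum.inl (i, r, b)) => .w i r b
    | Sum.inr (Sum.inr (Sum.inl (i, p, q))) => .h i p q
    | Sum.inr (Sum.inr (Sum.inr (Sum.inl (i, k)))) => .q i k
    | Sum.inr (Sum.inr (Sum.inr (Sum.inr (i, k)))) => .e i k
  left_inv x := by cases x <;> rfl
  right_inv x := by rcases x with x | x | x | x | x <;> rfl

theorem card_Vx (N m : ℕ) : Fintype.card (Vx N m) = 2 * N + 18 * m := by
  rw [Fintype.card_congr (sumEquiv N m)]
  simp only [Fintype.card_sum, Fintype.card_prod, Fintype.card_fin, Fintype.card_bool]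
  omega

theorem mem_vs (φ : Fm) (z : Lab) : z ∈ vs φ ↔
    ∃ x, lab (3 * φ.length) φ.length (15 * φ.length * (24 * φ.length + 1)) x = z := by
  unfold vs
  simp only [List.mem_append, mem_block]
  obtain ⟨t, i, k⟩ := z
  constructor
  · rintro (⟨h1, h2, h3⟩ | ⟨h1, h2, h3⟩ | ⟨h1, h2, h3⟩ | ⟨h1, h2, h3⟩ | ⟨h1, h2, h3⟩ |
      ⟨h1, h2, h3⟩) <;> simp only at h1 h2 h3 <;> subst h1
    · refine ⟨Sum.inl (.v ⟨i, h2⟩ (decide (k = 1))), ?_⟩
      have : k = 0 ∨ k = 1 := by omega
      rcases this with rfl | rfl <;> simp [lab, labV]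
    · refine ⟨Sum.inl (.w ⟨i / 3, by omega⟩ ⟨i % 3, by omega⟩ (decide (k = 1))), ?_⟩
      have h4 : 3 * (i / 3) + i % 3 = i := by omega
      have : k = 0 ∨ k = 1 := by omega
      rcases this with rfl | rfl <;> simp [lab, labV, h4]
    · refine ⟨Sum.inl (.h ⟨i, h2⟩ (decide (2 ≤ k)) (decide (k % 2 = 1))), ?_⟩
      have : k = 0 ∨ k = 1 ∨ k = 2 ∨ k = 3 := by omega
      rcases this with rfl | rfl | rfl | rfl <;> simp [lab, labV]
    · exact ⟨Sum.inl (.q ⟨i, h2⟩ ⟨k, h3⟩), rfl⟩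
    · exact ⟨Sum.inl (.e ⟨i, h2⟩ ⟨k, h3⟩), rfl⟩
    · refine ⟨Sum.inr ⟨i, h2⟩, ?_⟩
      have : k = 0 := by omega
      rw [this]
      rfl
  · rintro ⟨(⟨x, a⟩ | ⟨i', r, b⟩ | ⟨i', p, q⟩ | ⟨i', k'⟩ | ⟨i', k'⟩) | t', h⟩ <;>
      simp only [lab, labV, Prod.mk.injEq] at h <;> obtain ⟨rfl, rfl, rfl⟩ := h
    · have := Bool.toNat_le a
      have := x.2
      left
      exact ⟨rfl, by dsimp only; omega, by dsimp only; omega⟩
    · have := Bool.toNat_le b
      have := r.2
      have := i'.2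
      right; left
      exact ⟨rfl, by dsimp only; omega, by dsimp only; omega⟩
    · have := Bool.toNat_le p
      have := Bool.toNat_le q
      have := i'.2
      right; right; left
      exact ⟨rfl, by dsimp only; omega, by dsimp only; omega⟩
    · right; right; right; left
      exact ⟨rfl, i'.2, k'.2⟩
    · right; right; right; right; left
      exact ⟨rfl, i'.2, k'.2⟩
    · right; right; right; right; right
      exact ⟨rfl, t'.2, by norm_num⟩

/-- the signs -/
def sgn (φ : Fm) (i : Fin φ.length) (r : Fin 3) : Bool := (litL φ (3 * i.1 + r.1)).1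

theorem litL_lt {φ : Fm} (h : Bd13 φ) (i : Fin φ.length) (r : Fin 3) :
    (litL φ (3 * i.1 + r.1)).2 < 3 * φ.length := by
  have h1 := r.2
  have h2 : (3 * i.1 + r.1) / 3 = i.1 := by omega
  have h3 : (3 * i.1 + r.1) % 3 = r.1 := by omega
  have h4 : φ.getD i.1 d0 = φ[i] := List.getD_eq_getElem _ _ i.2
  obtain ⟨h5, h6, h7⟩ := h φ[i] (List.getElem_mem _)
  unfold litL
  rw [h2, h3, h4]
  split_ifs
  · exact h5
  · exact h6
  · exact h7

/-- the variables -/
def vrb {φ : Fm} (h : Bd13 φ) (i : Fin φ.length) (r : Fin 3) : Fin (3 * φ.length) :=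
  ⟨(litL φ (3 * i.1 + r.1)).2, litL_lt h i r⟩

end Q229.MS
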